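import Pool.Agent.H11.CC.Defs
import Pool.Agent.H11.ST.Ent

/-! The circle action: algebra. -/

set_option autoImplicit false

open scoped ContDiff Topology

namespace Pool.Agent.H66.SyC

open Pool.Agent.H66.SyL Pool.Agent.H11.ST Pool.Agent.H11.CC

variable (b : Bas)

private theorem ext_coord {v w : E 3} (h : ∀ k, inner ℂ (b k) v = inner ℂ (b k) w) : v = w := by
  apply b.repr.injective
  ext k
  rw [b.repr_apply_apply, b.repr_apply_apply]
  exact h k

private theorem rot_basis (θ : Fin (3 + 1) → ℝ) (j : Fin (3 + 1)) :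
    rot b θ (b j) = Complex.exp ((θ j : ℂ) * Complex.I) • b j := by
  refine ext_coord b fun k => ?_
  rw [coord_rot, inner_smul_right]
  by_cases hk : k = j
  · rw [hk]
  · rw [b.orthonormal.2 hk, mul_zero, mul_zero]

theorem ent_rt (t : ℝ) (P : Op 3) (i j : Fin (3 + 1)) :
    ent b (rt b t P) i j =
      Complex.exp (((t * (wc i - wc j) : ℝ) : ℂ) * Complex.I) * ent b P i j := by
  show inner ℂ (b i) (rot b (t • wc) (P (rot b (-(t • wc)) (b j)))) = _ * inner ℂ (b i) (P (b j))
  rw [coord_rot, rot_basis, map_smul, inner_smul_right, ← mul_assoc, ← Complex.exp_add]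
  congr 2
  rw [Pi.neg_apply, Complex.ofReal_neg, Pi.smul_apply, smul_eq_mul, Pi.smul_apply, smul_eq_mul,
    mul_sub, Complex.ofReal_sub]
  ring

theorem kc_rt (t : ℝ) (P : Op 3) : kc b (rt b t P) = kc b P := by
  have e : ∀ x y : ℝ, x + y = 0 → ∀ u v : ℂ, Complex.exp ((x : ℂ) * Complex.I) * u *
      (Complex.exp ((y : ℂ) * Complex.I) * v) = u * v := by
    intro x y h u v
    have h1 : Complex.exp ((x : ℂ) * Complex.I) * Complex.exp ((y : ℂ) * Complex.I) = 1 := by
      rw [← Complex.exp_add, ← add_mul, ← Complex.ofReal_add, h, Complex.ofReal_zero, zero_mul,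
        Complex.exp_zero]
    calc Complex.exp ((x : ℂ) * Complex.I) * u * (Complex.exp ((y : ℂ) * Complex.I) * v)
        = (Complex.exp ((x : ℂ) * Complex.I) * Complex.exp ((y : ℂ) * Complex.I)) * (u * v) := by
          ring
      _ = u * v := by rw [h1, one_mul]
  have e0 : ∀ x : ℝ, x = 0 → ∀ u : ℂ, Complex.exp ((x : ℂ) * Complex.I) * u = u := by
    intro x h u
    rw [h, Complex.ofReal_zero, zero_mul, Complex.exp_zero, one_mul]
  have w0 : wc 0 = 1 := rfl
  have w1 : wc 1 = 0 := rfl
  have w2 : wc 2 = 0 := rfl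
  have w3 : wc 3 = -1 := rfl
  unfold kc
  simp only [ent_rt, w0, w1, w2, w3]
  rw [e0 _ (by ring), e0 _ (by ring), e0 _ (by ring), e _ _ (by ring), e _ _ (by ring),
    e _ _ (by ring)]

theorem continuous_kc : Continuous (kc b) := by
  unfold kc
  refine continuous_pi fun i => ?_
  fin_cases i
  · exact continuous_ent b 1 1
  · exact continuous_ent b 1 2
  · exact continuous_ent b 2 2
  · exact (continuous_ent b 0 1).mul (continuous_ent b 3 1)
  · exact (continuous_ent b 0 1).mul (continuous_ent b 3 2)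
  · exact (continuous_ent b 0 2).mul (continuous_ent b 3 2)

theorem rt_zero (P : Op 3) : rt b 0 P = P := by
  rw [rt, zero_smul, act_zero]

theorem rt_add (s t : ℝ) (P : Op 3) : rt b (s + t) P = rt b s (rt b t P) := by
  rw [rt, rt, rt, add_smul, act_add]

theorem continuous_rt : Continuous fun q : ℝ × Op 3 => rt b q.1 q.2 := continuous_act b wc

theorem rt_pt (t : ℝ) (z : E 3) : rt b t (pt z) = pt (rot b (t • wc) z) := act_pt b (t • wc) z

theorem rt_per (P : Op 3) : rt b (2 * Real.pi) P = P := by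
  refine eq_of_ent b fun i j => ?_
  rw [ent_rt]
  have h : ∃ n : ℤ, wc i - wc j = n := by
    have h1 : ∀ i, ∃ n : ℤ, wc i = n := by
      intro i
      fin_cases i
      · exact ⟨1, by show (1 : ℝ) = _; norm_num⟩
      · exact ⟨0, by show (0 : ℝ) = _; norm_num⟩
      · exact ⟨0, by show (0 : ℝ) = _; norm_num⟩
      · exact ⟨-1, by show (-1 : ℝ) = _; norm_num⟩
    obtain ⟨n, hn⟩ := h1 i
    obtain ⟨m, hm⟩ := h1 j
    exact ⟨n - m, by rw [hn, hm]; push_cast; ring⟩
  obtain ⟨n, hn⟩ := h
  have h2 : ((2 * Real.pi * (wc i - wc j) : ℝ) : ℂ) * Complex.I =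
      (n : ℂ) * (2 * (Real.pi : ℂ) * Complex.I) := by
    rw [hn]
    push_cast
    ring
  rw [h2, Complex.exp_int_mul_two_pi_mul_I, one_mul]

theorem flw {b : Bas} {L : Set (Op 3)} (hC : Circ b L) : Flw L (rt b) where
  cont := continuous_rt b
  maps := hC.inv
  zero := rt_zero b
  add := rt_add b
  per := rt_per b

end Pool.Agent.H66.SyC
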