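import Pool.Agent.H66.SyC.Ac

/-! The fibres of kc are the orbits of the circle. -/

set_option autoImplicit false

open scoped ContDiff Topology

namespace Pool.Agent.H66.SyC

open Pool.Agent.H66.SyL Pool.Agent.H11.ST Pool.Agent.H11.CC

/-- Proof: |z_i| = |z'_i| for all i (kc 0, kc 2, sum_sq, h03), so z'_i = exp (i f_i) z_i (exists_arg in
ST/FibA). If z_1 /= 0: c = exp (i f_1), t = f_0 - f_1; kc 1 gives z'_2 = c z_2, kc 3 gives
z'_3 = c exp (- i t) z_3 if z_0 /= 0 (and z_3 = 0 otherwise), so z' = c rot (t wc) z, pt_eq_of_coord, rt_pt.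
If z_1 = 0, z_2 /= 0 the same with kc 5. If z_1 = z_2 = 0: c = exp (i (f_0 + f_3) / 2), t = (f_0 - f_3) / 2.
Pattern: H11/ST/FibA.lean. -/
theorem fibre (b : Bas) {z z' : E 3} (hz : ‖z‖ = 1) (hz' : ‖z'‖ = 1)
    (h03 : ‖inner ℂ (b 0) z‖ = ‖inner ℂ (b 3) z‖)
    (h03' : ‖inner ℂ (b 0) z'‖ = ‖inner ℂ (b 3) z'‖)
    (h : kc b (pt z) = kc b (pt z')) : ∃ t : ℝ, rt b t (pt z) = pt z' := by
  sorry

theorem fib {b : Bas} {L : Set (Op 3)} (hC : Circ b L) {P Q : Op 3} (hP : P ∈ L) (hQ : Q ∈ L)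
    (h : kc b P = kc b Q) : ∃ t : ℝ, rt b t P = Q := by
  obtain ⟨z, hz, rfl⟩ := hC.unit P hP
  obtain ⟨z', hz', rfl⟩ := hC.unit Q hQ
  exact fibre b hz hz' (hC.eq03 z hz hP) (hC.eq03 z' hz' hQ) h

end Pool.Agent.H66.SyC
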