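import Pool.Agent.H66.SyL.Main
import Pool.Agent.H11.ST.RedA
import Pool.Agent.H66.SyC.Ac

/-! A symmetry with a fixed point on L gives a circle action with a fixed point. -/

set_option autoImplicit false

open scoped ContDiff Topology

namespace Pool.Agent.H66.SyC

open Pool.Agent.H66.SyL Pool.Agent.H11.ST Pool.Agent.H11.CC

/-- Proof: SyL dichotomy (or SyL main, first part, third statement): w is not scalar and fixes P0, so it is
m + a (e_i - e_j), a > 0, m = mean w (the third type has no fixed point). Let σ be a permutation with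
σ i = 0, σ j = 3 (exists_perm for [i, k, l, j]) and b' = b.reindex σ. inv: act b' (t wc) = act b (t (e_i - e_j))
(act_reindex), and t (e_i - e_j) = (t / a) w - (t m / a) 1, and constants act trivially (sym_add, sym_const
in SyL). unit: hL. eq03: pair_norm for (i, j). fix: P0 = pt z is fixed by all act b (t w), so by all
rt b' t, and ent b' P0 0 1, 0 2, 0 3 vanish by ent_rt; if z_0 /= 0 this gives z_1 = z_2 = z_3 = 0, against
eq03. -/
theorem exists_circ {L : Set (Op 3)} (hL : IsLagrangian L) (hc : IsCompact L)
    (hconn : IsConnected L) (h1 : H1Zero L) (b : Bas) {w : Fin (3 + 1) → ℝ} (hs : Sym b L w)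
    (hn : ∃ k, w k ≠ mean w) (hf : ∃ P ∈ L, ∀ t : ℝ, act b (t • w) P = P) :
    ∃ b' : Bas, Circ b' L := by
  sorry

end Pool.Agent.H66.SyC
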