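import Pool.Agent.H66.SyC.Fb
import Pool.Agent.H11.SO.OpG

/-! The quotient map and the stabilisers. -/

set_option autoImplicit false

open scoped ContDiff Topology

namespace Pool.Agent.H66.SyC

open Pool.Agent.H66.SyL Pool.Agent.H11.ST Pool.Agent.H11.CC Pool.Agent.H11.SO

variable {b : Bas} {L : Set (Op 3)}

private theorem cont_path (b : Bas) (t : ℝ) (P : Op 3) : Continuous fun s : ℝ => rt b (s * t) P := by
  have h1 : Continuous fun s : ℝ => ((s * t, P) : ℝ × Op 3) := by fun_prop
  have h2 := Continuous.comp (continuous_rt b) h1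
  exact h2

private theorem cont_pt (b : Bas) (t : ℝ) : Continuous fun R : Op 3 => rt b t R := by
  have h1 : Continuous fun R : Op 3 => ((t, R) : ℝ × Op 3) := by fun_prop
  have h2 := Continuous.comp (continuous_rt b) h1
  exact h2

theorem redMap_kc (hc : IsCompact L) (hC : Circ b L) : RedMap L (kc b) := by
  refine ⟨(continuous_kc b).continuousOn, ?_, ?_⟩
  · intro P hP Q hQ h
    obtain ⟨t, ht⟩ := fib hC hP hQ h
    refine ⟨fun s => rt b (s * t) P, cont_path b t P, ?_, ?_, ?_⟩
    · show rt b (0 * t) P = P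
      rw [zero_mul, rt_zero]
    · show rt b (1 * t) P = Q
      rw [one_mul, ht]
    · intro s
      exact ⟨hC.inv _ P hP, kc_rt b _ P⟩
  · refine open_of_trans hc (continuous_kc b).continuousOn ?_
    intro P hP Q hQ h
    obtain ⟨t, ht⟩ := fib hC hQ hP h.symm
    exact ⟨fun R => rt b t R, (cont_pt b t).continuousOn,
      fun R hR => ⟨hC.inv t R hR, kc_rt b t R⟩, ht⟩

/-- points of L with z_0 = 0 are fixed -/
theorem fixed_of_zero (hC : Circ b L) {P : Op 3} (hP : P ∈ L) (h0 : ent b P 0 0 = 0) (t : ℝ) :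
    rt b t P = P := by
  obtain ⟨z, hz, rfl⟩ := hC.unit P hP
  have a0 : inner ℂ (b 0) z = 0 := by
    rw [ent_pt, Complex.mul_conj] at h0
    exact Complex.normSq_eq_zero.1 (by exact_mod_cast h0)
  have a3 : inner ℂ (b 3) z = 0 := by
    have h := hC.eq03 z hz hP
    rw [a0, norm_zero] at h
    exact norm_eq_zero.1 h.symm
  refine eq_of_ent b fun i j => ?_
  rw [ent_rt]
  by_cases h : wc i - wc j = 0
  · rw [h, mul_zero, Complex.ofReal_zero, zero_mul, Complex.exp_zero, one_mul]
  · have h1 : ent b (pt z) i j = 0 := by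
      rw [ent_pt]
      have hi : i = 0 ∨ i = 3 ∨ j = 0 ∨ j = 3 := by
        by_contra hcon
        push Not at hcon
        obtain ⟨c1, c2, c3, c4⟩ := hcon
        have e : ∀ k : Fin (3 + 1), k ≠ 0 → k ≠ 3 → wc k = 0 := by
          intro k k0 k3
          fin_cases k
          · exact absurd rfl k0
          · rfl
          · rfl
          · exact absurd rfl k3
        exact h (by rw [e i c1 c2, e j c3 c4, sub_zero])
      rcases hi with rfl | rfl | rfl | rfl
      · rw [a0, zero_mul]
      · rw [a3, zero_mul]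
      · rw [a0, map_zero, mul_zero]
      · rw [a3, map_zero, mul_zero]
    rw [h1, mul_zero]

theorem stab (hC : Circ b L) {P : Op 3} (hP : P ∈ L) {u : ℝ} (h : rt b u P = P) :
    (∀ t, rt b t P = P) ∨ ∃ k : ℤ, 2 * u = 2 * Real.pi * k := by
  by_cases h0 : ent b P 0 0 = 0
  · exact Or.inl (fixed_of_zero hC hP h0)
  · right
    have h3 : ent b P 0 3 ≠ 0 := by
      obtain ⟨z, hz, rfl⟩ := hC.unit P hP
      have a0 : inner ℂ (b 0) z ≠ 0 := by
        intro h1
        apply h0
        rw [ent_pt, h1, zero_mul]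
      have a3 : inner ℂ (b 3) z ≠ 0 := by
        rw [← norm_ne_zero_iff, ← hC.eq03 z hz hP, norm_ne_zero_iff]
        exact a0
      rw [ent_pt]
      exact mul_ne_zero a0 (by rwa [Ne, map_eq_zero])
    have h1 := ent_rt b u P 0 3
    rw [h] at h1
    have w0 : wc 0 = 1 := rfl
    have w3 : wc 3 = -1 := rfl
    have h2 : Complex.exp (((u * (wc 0 - wc 3) : ℝ) : ℂ) * Complex.I) = 1 := by
      have h4 : (Complex.exp (((u * (wc 0 - wc 3) : ℝ) : ℂ) * Complex.I) - 1) * ent b P 0 3 = 0 := by
        rw [sub_mul, one_mul, ← h1, sub_self]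
      rcases mul_eq_zero.1 h4 with h5 | h5
      · exact sub_eq_zero.1 h5
      · exact absurd h5 h3
    obtain ⟨n, hn⟩ := Complex.exp_eq_one_iff.1 h2
    refine ⟨n, ?_⟩
    rw [w0, w3] at hn
    have h5 := congrArg Complex.im hn
    simp only [Complex.mul_im, Complex.ofReal_re, Complex.I_im, mul_one, Complex.ofReal_im,
      Complex.I_re, mul_zero, add_zero, Complex.intCast_re, Complex.intCast_im, Complex.mul_re,
      Complex.re_ofNat, Complex.im_ofNat, zero_mul, sub_zero] at h5
    linarith

end Pool.Agent.H66.SyC
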